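import Pool.Agent.H61.CMC.TargetsE1

/-! CMC, part E1, row PQB: the polynomial factor. -/

set_option autoImplicit false

open MeasureTheory Set Filter NumberField NumberField.InfinitePlace NumberField.Units
  NumberField.Units.dirichletUnitTheorem
open scoped Real

namespace Pool.Agent.H40.CMC1

open Pool.Agent.H65.CM4 Pool.Agent.H65.CMC Pool.Agent.H25.HK Pool.Agent.H61.CM4
  Pool.Agent.H61.CMC

lemma pow_mul_exp_le (d : ℕ) (X : ℝ) (hX : 0 ≤ X) :
    X ^ d * Real.exp (-π * X) ≤ (d.factorial : ℝ) / π ^ d := by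
  have hπ : 0 < π := Real.pi_pos
  have h1 : (π * X) ^ d / (d.factorial : ℝ) ≤ Real.exp (π * X) :=
    Real.pow_div_factorial_le_exp (π * X) (by positivity) d
  have hf : (0 : ℝ) < d.factorial := by exact_mod_cast d.factorial_pos
  rw [div_le_iff₀ hf, mul_pow] at h1
  have he : Real.exp (-π * X) = (Real.exp (π * X))⁻¹ := by
    rw [← Real.exp_neg]; ring_nf
  rw [he, le_div_iff₀ (by positivity)]
  have hpos : 0 < Real.exp (π * X) := Real.exp_pos _
  rw [mul_assoc, mul_comm, mul_assoc, inv_mul_le_iff₀ hpos]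
  linarith [h1]

theorem pf_PQB : T_PQB := by
  intro k _ _ _ d
  classical
  refine ⟨∏ v : Pl k, ((d v).factorial : ℝ) / π ^ d v, by positivity, ?_⟩
  intro x y c u hy
  have hq : ∀ v : Pl k, 0 ≤ qr (x v) (y v) (rv v (u.1 : k)) (rv v (u.2 : k)) := by
    intro v
    unfold qr
    have := hy v
    positivity
  have hX : ∀ v : Pl k, 0 ≤ Real.exp (c v) * qr (x v) (y v) (rv v (u.1 : k)) (rv v (u.2 : k)) :=
    fun v => mul_nonneg (Real.exp_pos _).le (hq v)
  have h1 : 0 ≤ pq d x y c u := by
    unfold pq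
    exact Finset.prod_nonneg fun v _ => pow_nonneg (hX v) _
  have h2 : 0 ≤ qs x y c u := by
    unfold qs
    exact Finset.sum_nonneg fun v _ => hX v
  refine ⟨h1, h2, ?_, ?_⟩
  · have h3 : pq d x y c u * Real.exp (-π * qs x y c u)
        ≤ ∏ v : Pl k, ((d v).factorial : ℝ) / π ^ d v := by
      have : Real.exp (-π * qs x y c u) = ∏ v : Pl k, Real.exp (-π * (Real.exp (c v) *
          qr (x v) (y v) (rv v (u.1 : k)) (rv v (u.2 : k)))) := by
        unfold qs
        rw [Finset.mul_sum, Real.exp_sum]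
      rw [this]
      unfold pq
      rw [← Finset.prod_mul_distrib]
      refine Finset.prod_le_prod (fun v _ => mul_nonneg (pow_nonneg (hX v) _)
        (Real.exp_pos _).le) (fun v _ => pow_mul_exp_le (d v) _ (hX v))
    have h4 : Real.exp (-(2 * π) * qs x y c u)
        = Real.exp (-π * qs x y c u) * Real.exp (-π * qs x y c u) := by
      rw [← Real.exp_add]; ring_nf
    rw [h4, ← mul_assoc]
    exact mul_le_mul_of_nonneg_right h3 (Real.exp_pos _).le
  · unfold qs
    rw [Finset.sum_div]
    refine Finset.sum_congr rfl fun v _ => ?_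
    rw [Real.exp_sub, Real.exp_log (by norm_num)]
    ring

end Pool.Agent.H40.CMC1
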